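import Pool.Agent.X23.L3.Stm

/-!
# Part SEG of the project L3: a segment outside the polytope sees one closed set of facets
-/

set_option autoImplicit false

namespace Pool.Agent.X60.L3

open Pool.Agent.X23.L3

/-- **Part SEG.** -/
theorem t_SEG (hV : S_VIS) : S_SEG := by
  intro n X S R hR x x' hx hx' hseg hi j hj
  by_contra hjR
  have hdot : ∀ (k : Fin n) (t : ℝ), X.a k ⬝ᵥ (x + t • (x' - x)) =
      X.a k ⬝ᵥ x + t * (X.a k ⬝ᵥ x' - X.a k ⬝ᵥ x) := by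
    intro k t
    rw [dotProduct_add, dotProduct_smul, dotProduct_sub, smul_eq_mul]
  have hcont : ∀ k, Continuous (fun t : ℝ => X.a k ⬝ᵥ (x + t • (x' - x))) := by
    intro k
    simp_rw [hdot]
    fun_prop
  have hopen : ∀ A : Set (Fin n),
      IsOpen {t : ℝ | ∃ k ∈ A, X.b k < X.a k ⬝ᵥ (x + t • (x' - x))} := by
    intro A
    have e : {t : ℝ | ∃ k ∈ A, X.b k < X.a k ⬝ᵥ (x + t • (x' - x))} =
        ⋃ k ∈ A, {t : ℝ | X.b k < X.a k ⬝ᵥ (x + t • (x' - x))} := by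
      ext t
      simp
    rw [e]
    exact isOpen_biUnion fun k _ => isOpen_lt continuous_const (hcont k)
  obtain ⟨i, hiR, hix⟩ := hi
  obtain ⟨t, ht, ⟨k, hk, hkt⟩, ⟨l, hl, hlt⟩⟩ := (isPreconnected_Icc (a := (0 : ℝ)) (b := 1))
    {t : ℝ | ∃ k ∈ R, X.b k < X.a k ⬝ᵥ (x + t • (x' - x))}
    {t : ℝ | ∃ k ∈ Rᶜ, X.b k < X.a k ⬝ᵥ (x + t • (x' - x))} (hopen R) (hopen Rᶜ)
    (by
      intro t ht
      obtain ⟨k, hk⟩ := hseg t ht.1 ht.2
      by_cases h : k ∈ R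
      · exact Or.inl ⟨k, h, hk⟩
      · exact Or.inr ⟨k, h, hk⟩)
    ⟨0, ⟨le_rfl, zero_le_one⟩, i, hiR, by
      rw [hdot, zero_mul, add_zero]
      exact hix⟩
    ⟨1, ⟨zero_le_one, le_rfl⟩, j, hjR, by
      rw [hdot, one_mul]
      linarith⟩
  apply hl
  refine hV n X (x + t • (x' - x)) R k l hk hkt hlt ?_
  intro k' hk' l' _ hl' htouch
  refine hR k' hk' l' ?_ htouch
  intro hS
  have h1 := hx l' hS
  have h2 := hx' l' hS
  rw [hdot] at hl'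
  have h3 : X.a l' ⬝ᵥ x + t * (X.a l' ⬝ᵥ x' - X.a l' ⬝ᵥ x) =
      (1 - t) * (X.a l' ⬝ᵥ x) + t * (X.a l' ⬝ᵥ x') := by ring
  have h4 := mul_le_mul_of_nonneg_left h1 (sub_nonneg.2 ht.2)
  have h5 := mul_le_mul_of_nonneg_left h2 ht.1
  nlinarith

end Pool.Agent.X60.L3
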